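import Pool.Agent.Run7.h77.RD.CUBE
import Pool.Agent.Run7.h77.RD.LG
import Pool.Agent.Run7.h77.RD.TRI
import Pool.Agent.Run7.h77.RD.MULT
import Pool.Agent.Run7.h77.RD.UP
import Pool.Agent.Run7.h77.RD.LOW
import Pool.Agent.Run7.h482.RD.DEGA
import Pool.Agent.Run7.h482.RD.IND
import Pool.Agent.Run7.h463.RD.DEGB
import Pool.Agent.Run7.h77.RO.HN
import Pool.Agent.Run7.h77.RO.SUM
import Pool.Agent.Run7.h77.RO.DR2
import Pool.Agent.Run7.h77.RO.FIN
import Pool.Agent.Run7.h989.RO.DR0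
import Pool.Agent.Run7.h459.RO.DR1
import Pool.Agent.Run7.h77.RO.DA
import Pool.Agent.Run7.h298.RO.DB
import Pool.Agent.Run7.h648.RO.DU
import Pool.Agent.Run7.h77.RO.DU2
import Pool.Agent.Run7.h579.RO.DL
import Pool.Agent.Run7.h67.RO.MULT
import Pool.Agent.Run7.h894.RO.TRI
import Pool.Agent.Run7.h646.RO.IND
import Pool.Agent.Run7.h888.RO.UP

/-!
MP_e6c71b_co, Q1: for every `k ≥ 2` the lower bound `n / k` for the independence number of
triangle-free graphs of minimum degree at least one in which every degree occurs at most `k` times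
is asymptotically best possible.

Withdrawn as a hand-in: this is (up to the harmless condition on the minimum degree) the theorem of
B. Bollobas and A. D. Scott, Independent sets and repeated degrees, Discrete Math. 170 (1997) 41-49.
The proof here was found independently; it is kept only as a formal proof of that known theorem.
-/

namespace Pool.Agent.Run7.h77.Kept.AllK

/-- The largest number of vertices of the same degree. -/
noncomputable def f {n : ℕ} (G : SimpleGraph (Fin n)) : ℕ :=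
  ⨆ d : ℕ, {v : Fin n | (G.neighborSet v).ncard = d}.ncard

/-- The minimum of the independence numbers of the triangle-free graphs on `n` vertices with minimum
degree at least one and `f G ≤ k` (the minimum of the empty set is `⊤`). -/
noncomputable def g (k n : ℕ) : ℕ∞ :=
  ⨅ (G : SimpleGraph (Fin n)) (_ : G.CliqueFree 3 ∧ (∀ v, 1 ≤ (G.neighborSet v).ncard) ∧ f G ≤ k),
    (G.indepNum : ℕ∞)

theorem allK : ∀ k : ℕ, 2 ≤ k →
    Filter.liminf (fun n : ℕ => ((g k n : ℕ∞) : ENNReal) / (n : ENNReal)) Filter.atTop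
      = (k : ENNReal)⁻¹ :=
  Run7.h77.RO.t_FIN
    (Run7.h77.RD.t_UP (Run7.h77.RD.t_LG Run7.h77.RD.t_CUBE) Run7.h77.RD.t_TRI
      (Run7.h77.RD.t_MULT Run7.h482.RD.t_DEGA Run7.h463.RD.t_DEGB) Run7.h482.RD.t_IND)
    (Run7.h888.RO.t_UP (Run7.h77.RD.t_LG Run7.h77.RD.t_CUBE) Run7.h894.RO.t_TRI
      (Run7.h67.RO.t_MULT Run7.h77.RO.t_SUM (Run7.h989.RO.t_DR0 Run7.h77.RO.t_HN)
        (Run7.h459.RO.t_DR1 Run7.h77.RO.t_HN) (Run7.h77.RO.DR2.t_DR2 Run7.h77.RO.t_HN)
        (Run7.h77.RO.DA.t_DA Run7.h77.RO.t_HN) (Run7.h298.RO.t_DB Run7.h77.RO.t_HN)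
        Run7.h648.RO.t_DU0 Run7.h648.RO.t_DU1 Run7.h77.RO.DU2.t_DU2 Run7.h579.RO.t_DL)
      Run7.h646.RO.t_IND)
    Run7.h77.RD.t_LOW

end Pool.Agent.Run7.h77.Kept.AllK
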